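import Pool.Agent.R471.PP.Main

/-!
# Several polynomials at palindromes with prescribed leading digits, every base: few prime factors
-/

set_option autoImplicit false

namespace Pool.Agent.Results.MP_e8d2ce_nt.PolynomialValues

open Finset Polynomial

open Classical in
/-- Let `b ≥ 2` and let `F i`, `i ∈ s`, be finitely many polynomials with integer coefficients such that, if `b` is odd,
all `F i (1)` are odd, and such that for every prime `p` not dividing `2 b` there is an `r` with `p` dividing neither `r`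
nor any of the values `F i (r)`.  Then there are `c > 0`, `B`, `L₀` such that for all `L ≥ L₀`, all `N > L` and all `x`
with `2 N + 1` base-`b` digits whose leading digit `d` has `d` and all `F i (d)` coprime to `b`, at least
`c b ^ L / L ^ B` palindromes `n` with `2 N + 1` digits and with the `N - L` leading digits of `x` have the following
property: `n` and all the values `F i (n)` are nonzero, all their prime factors `p` satisfy `p ^ B > b ^ L`, and
each of them has at most `B N / L` prime factors, counted with multiplicity. -/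
theorem result (b : ℕ) (hb : 2 ≤ b) {ι : Type} (s : Finset ι) (F : ι → ℤ[X])
    (hodd : Even b ∨ ∀ i ∈ s, Odd ((F i).eval 1))
    (hloc : ∀ p : ℕ, p.Prime → ¬ p ∣ 2 * b → ∃ r : ℕ, ¬ p ∣ r ∧ ∀ i ∈ s, ¬ (p : ℤ) ∣ (F i).eval (r : ℤ)) :
    ∃ c : ℝ, 0 < c ∧ ∃ B L₀ : ℕ, ∀ L N x : ℕ, L₀ ≤ L → L < N → b ^ (2 * N) ≤ x → x < b ^ (2 * N + 1) →
    (x / b ^ (2 * N)).Coprime b → (∀ i ∈ s, IsCoprime ((F i).eval ((x / b ^ (2 * N) : ℕ) : ℤ)) (b : ℤ)) →
    c * (b : ℝ) ^ L / (L : ℝ) ^ B ≤ (((range (b ^ (2 * N + 1))).filter (fun n =>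
      (Nat.digits b n).reverse = Nat.digits b n ∧ n / b ^ (N + L + 1) = x / b ^ (N + L + 1) ∧ n ≠ 0 ∧
      (∀ p ∈ n.primeFactorsList, b ^ L < p ^ B) ∧ n.primeFactorsList.length * L ≤ B * N ∧
      ∀ i ∈ s, (F i).eval (n : ℤ) ≠ 0 ∧
        (∀ p ∈ ((F i).eval (n : ℤ)).natAbs.primeFactorsList, b ^ L < p ^ B) ∧
        ((F i).eval (n : ℤ)).natAbs.primeFactorsList.length * L ≤ B * N)).card : ℝ) := by
  have hev : ∀ y : ℤ, (∏ i ∈ s, F i).eval y = ∏ i ∈ s, (F i).eval y := fun y => eval_prod s F y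
  obtain ⟨c, hc, B, L₀, h⟩ := Pool.Agent.R471.PP.polyvals hb (∏ i ∈ s, F i) (by
    rcases hodd with h | h
    · exact Or.inl h
    · right
      rw [hev]
      exact prod_induction _ Odd (fun _ _ => Odd.mul) odd_one h) (by
    intro p hp hpb
    obtain ⟨r, hr, hr'⟩ := hloc p hp hpb
    have hpZ : Prime (p : ℤ) := Nat.prime_iff_prime_int.1 hp
    refine ⟨r, fun hd => ?_⟩
    rcases hpZ.dvd_or_dvd hd with h1 | h1
    · exact hr (Int.natCast_dvd_natCast.1 h1)
    · rw [hev] at h1
      obtain ⟨i, hi, h2⟩ := (Prime.dvd_finsetProd_iff hpZ _).1 h1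
      exact hr' i hi h2)
  refine ⟨c, hc, B, L₀, fun L N x hL hN h1 h2 h3 h4 => ?_⟩
  have hcop : IsCoprime (((x / b ^ (2 * N) : ℕ) : ℤ) * (∏ i ∈ s, F i).eval ((x / b ^ (2 * N) : ℕ) : ℤ)) (b : ℤ) := by
    apply IsCoprime.mul_left (Nat.isCoprime_iff_coprime.2 h3)
    rw [hev]
    exact IsCoprime.prod_left h4
  refine (h L N x hL hN h1 h2 hcop).trans ?_
  rw [Nat.cast_le]
  apply card_le_card
  intro n hn
  rw [mem_filter] at hn ⊢
  obtain ⟨g0, g1, g2, g3, g4, g5, g6⟩ := hn
  have hn0 : n ≠ 0 := by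
    rintro rfl
    have h5 : x / b ^ (N + L + 1) = 0 := by
      rw [← g2]
      simp
    have h6 : x < b ^ (N + L + 1) := (Nat.div_eq_zero_iff.1 h5).resolve_left (by positivity)
    have h7 : b ^ (N + L + 1) ≤ b ^ (2 * N) := Nat.pow_le_pow_right (by omega) (by omega)
    omega
  refine ⟨g0, g1, g2, hn0, fun p hp => ?_, g5, fun i hi => ?_⟩
  · exact g4 p (Nat.prime_of_mem_primeFactorsList hp)
      ((Int.natCast_dvd_natCast.2 (Nat.dvd_of_mem_primeFactorsList hp)).mul_right _)
  · have hd : (F i).eval (n : ℤ) ∣ (∏ i ∈ s, F i).eval (n : ℤ) := by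
      rw [hev]
      exact dvd_prod_of_mem _ hi
    have hne : (F i).eval (n : ℤ) ≠ 0 := by
      intro h0
      rw [h0, zero_dvd_iff] at hd
      exact g3 hd
    refine ⟨hne, fun p hp => ?_, le_trans (Nat.mul_le_mul_right _ ?_) g6⟩
    · exact g4 p (Nat.prime_of_mem_primeFactorsList hp)
        (((Int.natCast_dvd.2 (Nat.dvd_of_mem_primeFactorsList hp)).trans hd).mul_left _)
    · exact List.Sublist.length_le (Nat.primeFactorsList_sublist_of_dvd (Int.natAbs_dvd_natAbs.2 hd)
        (Int.natAbs_ne_zero.2 g3))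

end Pool.Agent.Results.MP_e8d2ce_nt.PolynomialValues
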