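import Mathlib
import Pool.Agent.N315.PS.PalinB

/-!
# Patterns of consecutive palindromes which are primes, in all bases and all sequential random models

The integers are decided one after the other and the conditional probability of choosing the integer `n + 1`, given
the decisions up to `n`, is asymptotic to `1 / log n`, almost surely.  Nothing else is assumed: no independence and
no rate of convergence.  The independent model of Cramér and the random sieve of Hawkins are examples.

Let `p_0 < p_1 < ...` be the palindromes with an odd number of digits in the base `b ≥ 2`.  Almost surely, for ALL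
bases `b` and ALL finite nonempty sets `E` of shifts, with `k = |E|` and `M = {n : p_(n+e) is chosen for all e ∈ E}`:
(1) `M` has about `N / (2 log N) ^ k` elements below `N`; (2) the numbers of elements of `M` in the windows
`(n, n + λ (2 log n) ^ k]` follow the Poisson law with parameter `λ`; (3) the gaps of `M`, divided by `(2 log n) ^ k`,
have asymptotically the exponential distribution with mean one.  For example `E = {0, 1}`: two consecutive
palindromes, both chosen.  The same is true for every sequence of integers `x_0 < x_1 < ...` with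
`log x_n / log n → D > 0` in place of the palindromes, with `D` in place of `2`.

Proof. The members of a pattern are tried in their order. The number of the trials of the last member is, in most
windows, known by a concentration inequality; the conditional probability of exactly `r` successes is bounded from
above by the exact limit; an exponential inequality for windows which do not overlap gives the upper frequencies of
all `r`, almost surely; as the limits have the sum one, these are the frequencies.
-/

set_option autoImplicit false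

open MeasureTheory Filter Set ProbabilityTheory Polynomial
open scoped Topology

namespace Pool.Agent.Results.MP_e8d2ce_nt.PrimePatterns

variable {Ω : Type}

/-- `A n` is the event that `n` is chosen; adapted to `ℱ`; the conditional probability of `A (n + 1)` given
`ℱ n`, times `log n`, tends almost surely to one -/
def SequentialModel [m : MeasurableSpace Ω] (μ : Measure Ω) (ℱ : Filtration ℕ m) (A : ℕ → Set Ω) : Prop :=
  (∀ n, MeasurableSet[ℱ n] (A n)) ∧
  ∀ᵐ ω ∂μ, Tendsto (fun n : ℕ => (μ[(A (n + 1)).indicator (fun _ => (1 : ℝ)) | ℱ n]) ω * Real.log n) atTop (𝓝 1)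

/-- The model of Cramér: independent events, `n` is chosen with probability `1 / log n` for `n ≥ 3`. -/
def CramerModel [MeasurableSpace Ω] (μ : Measure Ω) (A : ℕ → Set Ω) : Prop :=
  (∀ n, MeasurableSet (A n)) ∧ iIndepSet A μ ∧ ∀ n : ℕ, 3 ≤ n → μ (A n) = ENNReal.ofReal (1 / Real.log n)

open Classical in
/-- The random sieve of Hawkins: `2` is chosen, and given the decisions up to `n ≥ 2` the number
`n + 1` is chosen with probability `∏ (1 - 1 / h)`, the product over the chosen `2 ≤ h ≤ n`. -/
def HawkinsSieve [m : MeasurableSpace Ω] (μ : Measure Ω) (ℱ : Filtration ℕ m) (A : ℕ → Set Ω) : Prop :=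
  (∀ n, MeasurableSet[ℱ n] (A n)) ∧ A 2 = univ ∧
  ∀ n, 2 ≤ n → μ[(A (n + 1)).indicator (fun _ => (1 : ℝ)) | ℱ n] =ᵐ[μ]
    fun ω => ∏ h ∈ Finset.Icc 2 n, if ω ∈ A h then 1 - 1 / (h : ℝ) else 1

/-- the palindromes with an odd number of digits in base `b`, in increasing order -/
noncomputable def palindrome (b n : ℕ) : ℕ :=
  Nat.nth (fun t => (Nat.digits b t).length % 2 = 1 ∧ (Nat.digits b t).reverse = Nat.digits b t) n

/-- the indices `n` such that `x (n + e)` is an element of `S` for all `e ∈ E` -/
def pattern (x : ℕ → ℕ) (S : Set ℕ) (E : Finset ℕ) : Set ℕ := {n | ∀ e ∈ E, x (n + e) ∈ S}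

/-- The laws for a set `M` with the constant `D` and the exponent `k`: (1) the number of the elements of `M` below
`N`, times `log ^ k N / N`, tends to `D ^ (-k)`; and for all `λ > 0`, (2) the proportion of the `n < N` with exactly
`r` elements `i` of `M`, `n < i ≤ n + λ (D log n) ^ k`, tends to `λ ^ r / r! exp (-λ)`; (3) the proportion of the `n`
whose distance to the next element of `M` is greater than `λ (D log n) ^ k` among the elements `n < N` of `M` tends
to `exp (-λ)`. -/
def PoissonLaws (M : Set ℕ) (D : ℝ) (k : ℕ) : Prop :=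
  Tendsto (fun N : ℕ => ({n : ℕ | n < N ∧ n ∈ M}.ncard : ℝ) * Real.log N ^ k / N) atTop (𝓝 ((1 / D) ^ k)) ∧
  ∀ lam : ℝ, 0 < lam →
    (∀ r : ℕ, Tendsto (fun N : ℕ => ({n : ℕ | n < N ∧
      {i : ℕ | i ∈ M ∧ n < i ∧ (i : ℝ) ≤ n + lam * (D * Real.log n) ^ k}.ncard = r}.ncard : ℝ) / N)
      atTop (𝓝 (lam ^ r / (r.factorial : ℝ) * Real.exp (-lam)))) ∧
    Tendsto (fun N : ℕ => ({n : ℕ | n < N ∧ n ∈ M ∧ lam * (D * Real.log n) ^ k < (sInf {i | i ∈ M ∧ n < i} : ℕ) - (n : ℝ)}.ncard : ℝ) /
      ({n : ℕ | n < N ∧ n ∈ M}.ncard : ℝ)) atTop (𝓝 (Real.exp (-lam)))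

open Pool.Agent.N740.HK Pool.Agent.R528.RM Pool.Agent.N315.CC Pool.Agent.N315.PL Pool.Agent.N315.PS

lemma prod_inv (A : ℕ → Set Ω) (n : ℕ) (ω : Ω) [DecidablePred fun h => ω ∈ A h] :
    (∏ h ∈ Finset.Icc 2 n, if ω ∈ A h then 1 - 1 / (h : ℝ) else 1) = (Y A n ω)⁻¹ := by
  unfold Y
  rw [← Finset.prod_inv_distrib]
  refine Finset.prod_congr rfl fun h hh => ?_
  have h2 : (2 : ℝ) ≤ h := by exact_mod_cast (Finset.mem_Icc.1 hh).1
  by_cases hA : ω ∈ A h
  · rw [if_pos hA, if_pos hA, inv_div]
    field_simp
  · rw [if_neg hA, if_neg hA, inv_one]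

lemma log_ratio : Tendsto (fun n : ℕ => (Real.log ((n + 1 : ℕ) : ℝ))⁻¹ * Real.log n) atTop (𝓝 1) := by
  have h1 : Tendsto (fun n : ℕ => Real.log ((n : ℝ) + 1) - Real.log n) atTop (𝓝 0) := by
    have h1 : Tendsto (fun n : ℕ => 1 + (1 : ℝ) / n) atTop (𝓝 (1 + 0)) :=
      tendsto_const_nhds.add tendsto_one_div_atTop_nhds_zero_nat
    rw [add_zero] at h1
    have h2 := (Real.continuousAt_log (one_ne_zero)).tendsto.comp h1
    rw [Real.log_one] at h2
    refine h2.congr' ?_
    filter_upwards [eventually_gt_atTop 0] with n hn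
    have hn' : (0 : ℝ) < n := by exact_mod_cast hn
    show Real.log (1 + 1 / (n : ℝ)) = _
    rw [← Real.log_div (by positivity) hn'.ne']
    congr 1
    field_simp
  have h2 : Tendsto (fun n : ℕ => Real.log ((n : ℝ) + 1)) atTop atTop :=
    Real.tendsto_log_atTop.comp (tendsto_atTop_add_const_right _ _ tendsto_natCast_atTop_atTop)
  have h3 := h1.div_atTop h2
  have h4 : Tendsto (fun n : ℕ => 1 - (Real.log ((n : ℝ) + 1) - Real.log n) / Real.log ((n : ℝ) + 1)) atTop (𝓝 (1 - 0)) :=
    tendsto_const_nhds.sub h3
  rw [sub_zero] at h4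
  refine h4.congr' ?_
  filter_upwards [h2.eventually_gt_atTop 0] with n hn
  push_cast
  field_simp
  ring

lemma laws_of {M : Set ℕ} {D : ℝ} {k : ℕ} (h : Laws (fun M s => sInf {t | t ∈ M ∧ s < t}) M ((1 / D) ^ k) k) :
    PoissonLaws M D k := by
  have e : ∀ lam t : ℝ, lam / (1 / D) ^ k * t ^ k = lam * (D * t) ^ k := fun lam t => by
    rw [mul_pow, one_div, inv_pow, div_inv_eq_mul]
    ring
  unfold Laws at h
  simp only [e] at h
  exact h

end Pool.Agent.Results.MP_e8d2ce_nt.PrimePatterns

open Pool.Agent.Results.MP_e8d2ce_nt.PrimePatterns Pool.Agent.N740.HK Pool.Agent.R528.RM Pool.Agent.N315.PS Pool.Agent.N315.CC Pool.Agent.N315.PL Polynomial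

/-- The model of Cramér (for some filtration) and the random sieve of Hawkins are sequential models.  In every
sequential model: (1) almost surely, for all bases `b ≥ 2` and all finite nonempty sets `E`, the laws of `PoissonLaws`
hold with `D = 2` and `k = |E|` for the `n` such that the palindromes with the indices `n + e`, `e ∈ E`, in the
sequence of the palindromes with an odd number of digits in base `b`, are all chosen; (2) for every strictly
increasing sequence `x` of integers with `log (x n) / log n → D > 0`, almost surely, for all finite nonempty sets `E`,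
the laws of `PoissonLaws` hold with `D` and `k = |E|` for the `n` such that `x (n + e)` is chosen for all `e ∈ E`. -/
theorem Pool.Agent.Results.MP_e8d2ce_nt.PrimePatterns.result
    {Ω : Type} [m : MeasurableSpace Ω] (μ : Measure Ω) [IsProbabilityMeasure μ] (A : ℕ → Set Ω) :
    (CramerModel μ A → ∃ ℱ : Filtration ℕ m, SequentialModel μ ℱ A) ∧
    (∀ ℱ : Filtration ℕ m, HawkinsSieve μ ℱ A → SequentialModel μ ℱ A) ∧
    (∀ ℱ : Filtration ℕ m, SequentialModel μ ℱ A →
      (∀ᵐ ω ∂μ, ∀ b : ℕ, 2 ≤ b → ∀ E : Finset ℕ, E.Nonempty → PoissonLaws (pattern (palindrome b) {n | ω ∈ A n} E) 2 E.card) ∧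
      (∀ (x : ℕ → ℕ) (D : ℝ), StrictMono x → 0 < D →
        Tendsto (fun n : ℕ => Real.log (x n) / Real.log n) atTop (𝓝 D) →
        ∀ᵐ ω ∂μ, ∀ E : Finset ℕ, E.Nonempty → PoissonLaws (pattern x {n | ω ∈ A n} E) D E.card)) := by
  classical
  refine ⟨?_, ?_, ?_⟩
  · rintro ⟨hA, hi, hp⟩
    refine ⟨gen hA, gen_meas hA, ?_⟩
    have h1 : ∀ᵐ ω ∂μ, ∀ n, (μ[(A (n + 1)).indicator (fun _ => (1 : ℝ)) | gen hA n]) ω =
        (μ (A (n + 1))).toReal := ae_all_iff.2 fun n => dens_gen hA hi n
    filter_upwards [h1] with ω hω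
    refine log_ratio.congr' ?_
    filter_upwards [eventually_ge_atTop 2] with n hn
    rw [hω, hp (n + 1) (by omega), ENNReal.toReal_ofReal, one_div]
    have : 0 ≤ Real.log ((n + 1 : ℕ) : ℝ) := Real.log_natCast_nonneg _
    positivity
  · rintro ℱ ⟨h1, h2, h3⟩
    have hs : Pool.Agent.N740.HK.HS μ ℱ A := ⟨h1, h2, fun n hn => by
      filter_upwards [h3 n hn] with ω hω
      rw [← prod_inv]
      exact hω⟩
    exact ⟨h1, Pool.Agent.N740.HK.hawk_dens hs⟩
  · rintro ℱ ⟨hA, hd⟩
    have hprof := dens_profile (μ := μ) (ℱ := ℱ) hA 1 one_pos (fun n hn => absurd (Nat.coprime_one_right n) hn) (by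
      rw [Nat.totient_one, Nat.cast_one, div_one]
      filter_upwards [hd] with ω hω
      exact hω.mono_left inf_le_left)
    have key : ∀ (x : ℕ → ℕ) (D : ℝ), StrictMono x → 0 < D →
        Tendsto (fun n : ℕ => Real.log (x n) / Real.log n) atTop (𝓝 D) →
        ∀ᵐ ω ∂μ, ∀ E : Finset ℕ, E.Nonempty → PoissonLaws (pattern x {n | ω ∈ A n} E) D E.card := by
      intro x D hx hD hlog
      filter_upwards [pat_laws hA hprof hx hD hlog] with ω hω E hE
      exact laws_of (hω E hE)
    exact ⟨ae_all_iff.2 fun b => ae_all_iff.2 fun hb => key (palindrome b) 2 (pb_mono hb) (by norm_num) (pb_log hb), key⟩
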