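import Mathlib
import Pool.Agent.N256.PL.BaseLaw

set_option autoImplicit false

/-!
# Palindromes in all bases in every sequential random model of the primes

The questions are whether for every base `b ≥ 2` there are infinitely many primes which are
palindromes in base `b`, and whether their number up to `x` is of the order of the number of
palindromes divided by `log x`.  We answer both in EVERY sequential random model of the primes (the
integers are decided one after the other, only integers coprime to a fixed `Q` can be chosen, and the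
conditional probability of choosing `n + 1` (coprime to `Q`) given the past is asymptotic to
`(Q / φ(Q)) / log n`; no independence is assumed), for the first question uniformly in the base and
in the number of digits.
-/

open MeasureTheory Filter
open scoped Topology

namespace Pool.Agent.Results.MP_e8d2ce_nt.SievedModels

/-- the positive integers which are palindromes in base `b` -/
def pal (b : ℕ) : Set ℕ := {t | 0 < t ∧ (Nat.digits b t).reverse = Nat.digits b t}

/-- the number of the palindromes with exactly `j` digits in base `b` which lie in `S` -/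
noncomputable def cnt (S : Set ℕ) (b j : ℕ) : ℕ := {t | t ∈ pal b ∧ (Nat.digits b t).length = j ∧ t ∈ S}.ncard

/-- the number of the palindromes `≤ x` in base `b` which lie in `S` -/
noncomputable def cum (S : Set ℕ) (b : ℕ) (x : ℝ) : ℕ := {t : ℕ | t ∈ pal b ∧ (t : ℝ) ≤ x ∧ t ∈ S}.ncard

open Pool.Agent.N909.TF Pool.Agent.N256.PB

lemma pal_set (b j : ℕ) (hj : 0 < j) (S : Set ℕ) :
    {t | t ∈ pal b ∧ (Nat.digits b t).length = j ∧ t ∈ S} = palB b j ∩ S := by
  ext t
  simp only [Set.mem_ofPred_eq, Set.mem_inter_iff, pal, palB]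
  constructor
  · rintro ⟨⟨-, h2⟩, h3, h4⟩
    exact ⟨⟨h3, h2⟩, h4⟩
  · rintro ⟨⟨h3, h2⟩, h4⟩
    refine ⟨⟨?_, h2⟩, h3, h4⟩
    rcases Nat.eq_zero_or_pos t with h | h
    · subst h
      simp at h3
      omega
    · exact h

lemma cnt_eq (S : Set ℕ) (b j : ℕ) (hj : 0 < j) : cnt S b j = (palB b j ∩ S).ncard := by
  unfold cnt
  rw [pal_set b j hj]

lemma cum_set (b : ℕ) (x : ℝ) (hx : 0 ≤ x) (S : Set ℕ) :
    {t : ℕ | t ∈ pal b ∧ (t : ℝ) ≤ x ∧ t ∈ S} = (PX b ⌊x⌋₊ : Set ℕ) ∩ S := by
  classical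
  ext t
  unfold PX pal
  simp only [Set.mem_ofPred_eq, Set.mem_inter_iff, Finset.coe_filter, Finset.mem_Icc, Nat.le_floor_iff hx]
  constructor
  · rintro ⟨⟨h1, h2⟩, h3, h4⟩
    exact ⟨⟨⟨h1, h3⟩, h2⟩, h4⟩
  · rintro ⟨⟨⟨h1, h3⟩, h2⟩, h4⟩
    exact ⟨⟨h1, h2⟩, h3, h4⟩

lemma cum_univ (b : ℕ) (x : ℝ) (hx : 0 ≤ x) : cum Set.univ b x = (PX b ⌊x⌋₊).card := by
  unfold cum
  rw [cum_set b x hx, Set.inter_univ, Set.ncard_coe_finset]

lemma cum_cho {Ω : Type} (A : ℕ → Set Ω) (ω : Ω) (b : ℕ) (x : ℝ) (hx : 0 ≤ x) :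
    cum {t | ω ∈ A t} b x = (cho A (PX b ⌊x⌋₊) (fun t => {t}) ω).card := by
  classical
  unfold cum
  rw [cum_set b x hx, ← Set.ncard_coe_finset]
  congr 1
  ext t
  unfold cho
  simp only [Finset.coe_filter, Finset.mem_singleton, forall_eq, Set.mem_ofPred_eq, Set.mem_inter_iff, Finset.mem_coe]

end Pool.Agent.Results.MP_e8d2ce_nt.SievedModels

open Pool.Agent.Results.MP_e8d2ce_nt.SievedModels Pool.Agent.N909.TF Pool.Agent.N256.PB in
/-- Let `A n` be the event that `n` belongs to a random set adapted to a filtration `ℱ`, let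
`Q ≥ 1`, let no integer which is not coprime to `Q` be chosen, and let the conditional probability of
`A (n + 1)` given `ℱ n`, times `log n`, tend to `Q / φ(Q)` along the `n` with `n + 1` coprime to `Q`,
almost surely.  Let `N(b, n)` be the number of the palindromes with exactly `2 n + 1` digits in base
`b` which are coprime to `Q`.  (1) There is `κ > 0` with `N(b, n) ≥ κ b ^ (n + 1)` for all `b ≥ 2`,
`n ≥ 0` for which `b ^ (n + 1)` is large.  (2) Almost surely, as `b ^ (n + 1) → ∞`, uniformly in all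
bases `b ≥ 2` and all `n ≥ 0`, the number of the chosen palindromes with exactly `2 n + 1` digits in
base `b` is asymptotic to `N(b, n) (Q / φ(Q)) / ((2 n + 1) log b)`.  (3) Almost surely, for all but
finitely many pairs `(b, n)`, `b ≥ 2`, there is a chosen palindrome with exactly `2 n + 1` digits in
base `b`; in particular infinitely many palindromes in every base are chosen.  (4) Almost surely, for
every `b ≥ 2`, the number of the chosen palindromes `≤ x` in base `b` lies between two positive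
constants times the number of palindromes `≤ x` divided by `log x`, for all large real `x`. -/
theorem Pool.Agent.Results.MP_e8d2ce_nt.SievedModels.result
    {Ω : Type} [mΩ : MeasurableSpace Ω] (μ : Measure Ω) [IsProbabilityMeasure μ]
    (ℱ : Filtration ℕ mΩ) (A : ℕ → Set Ω) (hA : ∀ n, MeasurableSet[ℱ n] (A n))
    (Q : ℕ) (hQ : 0 < Q) (hcop : ∀ n, ¬ Nat.Coprime n Q → A n = ∅)
    (hd : ∀ᵐ ω ∂μ, Tendsto (fun n : ℕ =>
      (μ[(A (n + 1)).indicator (fun _ => (1 : ℝ)) | ℱ n]) ω * Real.log n)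
      (atTop ⊓ 𝓟 {n : ℕ | Nat.Coprime (n + 1) Q}) (𝓝 ((Q : ℝ) / Nat.totient Q))) :
    (∃ κ X : ℝ, 0 < κ ∧ ∀ b n : ℕ, 2 ≤ b → X ≤ (b : ℝ) ^ (n + 1) →
      κ * (b : ℝ) ^ (n + 1) ≤ cnt {t | Nat.Coprime t Q} b (2 * n + 1)) ∧
    (∀ᵐ ω ∂μ, ∀ ε : ℝ, 0 < ε → ∃ X : ℝ, ∀ b n : ℕ, 2 ≤ b → X ≤ (b : ℝ) ^ (n + 1) →
      |(cnt {t | ω ∈ A t} b (2 * n + 1) : ℝ) -
        (cnt {t | Nat.Coprime t Q} b (2 * n + 1) : ℝ) * (((Q : ℝ) / Nat.totient Q) / ((2 * n + 1) * Real.log b))| ≤
      ε * ((cnt {t | Nat.Coprime t Q} b (2 * n + 1) : ℝ) *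
        (((Q : ℝ) / Nat.totient Q) / ((2 * n + 1) * Real.log b)))) ∧
    (∀ᵐ ω ∂μ, {p : ℕ × ℕ | 2 ≤ p.1 ∧
        ¬ ∃ t ∈ pal p.1, (Nat.digits p.1 t).length = 2 * p.2 + 1 ∧ ω ∈ A t}.Finite ∧
      ∀ b : ℕ, 2 ≤ b → {t | t ∈ pal b ∧ ω ∈ A t}.Infinite) ∧
    (∀ᵐ ω ∂μ, ∀ b : ℕ, 2 ≤ b → ∃ c C : ℝ, 0 < c ∧ ∀ᶠ x : ℝ in atTop,
      c * (cum Set.univ b x / Real.log x) ≤ cum {t | ω ∈ A t} b x ∧
      (cum {t | ω ∈ A t} b x : ℝ) ≤ C * (cum Set.univ b x / Real.log x)) := by
  classical
  have hQr : (0 : ℝ) < Q := by exact_mod_cast hQ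
  have hφ : (0 : ℝ) < Nat.totient Q := by exact_mod_cast Nat.totient_pos.2 hQ
  have hc0 : (0 : ℝ) < (Q : ℝ) / Nat.totient Q := by positivity
  have hNN : ∀ b n : ℕ, cnt {t | Nat.Coprime t Q} b (2 * n + 1) = NN Q b (2 * n + 1) := by
    intro b n
    rw [cnt_eq _ _ _ (by omega)]
    rfl
  have h1 : ∃ κ X : ℝ, 0 < κ ∧ ∀ b n : ℕ, 2 ≤ b → X ≤ (b : ℝ) ^ (n + 1) →
      κ * (b : ℝ) ^ (n + 1) ≤ cnt {t | Nat.Coprime t Q} b (2 * n + 1) := by
    obtain ⟨κ, X, h, h'⟩ := NN_lower Q hQ
    refine ⟨κ, X, h, fun b n hb hX => ?_⟩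
    rw [hNN]
    exact h' b n hb hX
  have h2 : ∀ᵐ ω ∂μ, ∀ ε : ℝ, 0 < ε → ∃ X : ℝ, ∀ b n : ℕ, 2 ≤ b → X ≤ (b : ℝ) ^ (n + 1) →
      |(cnt {t | ω ∈ A t} b (2 * n + 1) : ℝ) -
        (cnt {t | Nat.Coprime t Q} b (2 * n + 1) : ℝ) * (((Q : ℝ) / Nat.totient Q) / ((2 * n + 1) * Real.log b))| ≤
      ε * ((cnt {t | Nat.Coprime t Q} b (2 * n + 1) : ℝ) *
        (((Q : ℝ) / Nat.totient Q) / ((2 * n + 1) * Real.log b))) := by
    filter_upwards [base_law (μ := μ) hA Q hQ hcop hd] with ω hω ε hε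
    obtain ⟨X, hX⟩ := hω ε hε
    refine ⟨X, fun b n hb hb' => ?_⟩
    rw [hNN, cnt_eq _ _ _ (by omega)]
    exact hX b n hb hb'
  refine ⟨h1, h2, ?_, ?_⟩
  · filter_upwards [h2] with ω hω
    obtain ⟨κ, X1, hκ, h3⟩ := h1
    obtain ⟨X2, h4⟩ := hω (1 / 2) (by norm_num)
    have hex : ∀ b n : ℕ, 2 ≤ b → max (max X1 X2) 1 ≤ (b : ℝ) ^ (n + 1) →
        ∃ t ∈ pal b, (Nat.digits b t).length = 2 * n + 1 ∧ ω ∈ A t := by
      intro b n hb hX
      have hb' : (1 : ℝ) < b := by exact_mod_cast hb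
      have hl : 0 < Real.log (b : ℝ) := Real.log_pos hb'
      have g1 := h3 b n hb (((le_max_left _ _).trans (le_max_left _ _)).trans hX)
      have g2 := (abs_le.1 (h4 b n hb (((le_max_right _ _).trans (le_max_left _ _)).trans hX))).1
      have g3 : (0 : ℝ) < (cnt {t | Nat.Coprime t Q} b (2 * n + 1) : ℝ) := lt_of_lt_of_le (by positivity) g1
      have g4 : 0 < ((cnt {t | Nat.Coprime t Q} b (2 * n + 1) : ℝ) *
        (((Q : ℝ) / Nat.totient Q) / ((2 * n + 1) * Real.log b))) := by positivity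
      have g5 : (0 : ℝ) < cnt {t | ω ∈ A t} b (2 * n + 1) := by linarith
      have g6 : 0 < cnt {t | ω ∈ A t} b (2 * n + 1) := by exact_mod_cast g5
      obtain ⟨t, ht1, ht2, ht3⟩ := Set.nonempty_of_ncard_ne_zero g6.ne'
      exact ⟨t, ht1, ht2, ht3⟩
    refine ⟨?_, fun b hb => ?_⟩
    · obtain ⟨N, hN⟩ := exists_nat_ge (max (max X1 X2) 1)
      refine Set.Finite.subset ((Finset.range N ×ˢ Finset.range N).finite_toSet) ?_
      rintro ⟨b, n⟩ ⟨hb, hno⟩
      simp only at hb hno
      have h5 : b ^ (n + 1) < N := by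
        by_contra hcon
        push Not at hcon
        apply hno
        apply hex b n hb
        refine hN.trans ?_
        exact_mod_cast hcon
      have h6 : b ≤ b ^ (n + 1) := Nat.le_self_pow (by omega) _
      have h7 : n < b ^ (n + 1) := by
        calc n < 2 ^ n := Nat.lt_two_pow_self
          _ ≤ 2 ^ (n + 1) := Nat.pow_le_pow_right (by norm_num) (by omega)
          _ ≤ _ := Nat.pow_le_pow_left hb _
      rw [Finset.mem_coe, Finset.mem_product, Finset.mem_range, Finset.mem_range]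
      constructor
      · show b < N
        omega
      · show n < N
        omega
    · rw [Set.infinite_iff_exists_gt]
      intro a
      obtain ⟨N, hN⟩ := exists_nat_ge (max (max X1 X2) 1)
      have hpow : ∀ k : ℕ, k < b ^ k := fun k => Nat.lt_pow_self (by omega)
      obtain ⟨t, ht1, ht2, ht3⟩ := hex b (max N a) hb (by
        refine hN.trans ?_
        have h8 : N ≤ b ^ (max N a + 1) := by
          calc N ≤ max N a + 1 := by omega
            _ ≤ _ := (hpow _).le
        exact_mod_cast h8)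
      refine ⟨t, ⟨ht1, ht3⟩, ?_⟩
      have h9 := (pal_size hb (j := 2 * max N a) ⟨ht2, ht1.2⟩).1
      have h10 : b ^ (max N a) ≤ b ^ (2 * max N a) := Nat.pow_le_pow_right (by omega) (by omega)
      have h11 := hpow (max N a)
      omega
  · have h5 : ∀ᵐ ω ∂μ, ∀ b : ℕ, 2 ≤ b → ∀ ε : ℝ, 0 < ε → ∀ᶠ x : ℕ in atTop,
        |((cho A (PX b x) (fun t => {t}) ω).card : ℝ) -
          ((cop (PX b x) (fun t => {t}) Q).card : ℝ) * (((Q : ℝ) / Nat.totient Q) / Real.log x)| ≤
        ε * (((cop (PX b x) (fun t => {t}) Q).card : ℝ) * (((Q : ℝ) / Nat.totient Q) / Real.log x)) := by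
      rw [ae_all_iff]
      intro b
      by_cases hb : 2 ≤ b
      · filter_upwards [fixed_law (μ := μ) hA Q hQ hcop hd b hb] with ω hω _
        exact hω
      · exact Eventually.of_forall fun ω h => absurd h hb
    filter_upwards [h5] with ω hω b hb
    obtain ⟨c1, hc1, hcx⟩ := cop_ge Q b hQ hb
    set q : ℝ := (Q : ℝ) / Nat.totient Q with hq
    have hb0 : (0 : ℝ) < b := by
      have : 0 < b := by omega
      exact_mod_cast this
    have hfl : Tendsto (fun x : ℝ => ⌊x⌋₊) atTop atTop := tendsto_nat_floor_atTop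
    refine ⟨c1 / (4 * b) * q / 2, 4 * q, by positivity, ?_⟩
    filter_upwards [hfl.eventually (hω b hb (1 / 2) (by norm_num)), hfl.eventually hcx, eventually_ge_atTop 4]
      with x g1 g2 g3
    have hx0 : 0 ≤ x := by linarith
    rw [cum_univ b x hx0, cum_cho A ω b x hx0]
    set n := ⌊x⌋₊ with hn
    have hnx : (n : ℝ) ≤ x := Nat.floor_le hx0
    have hn4 : 4 ≤ n := Nat.le_floor (by exact_mod_cast g3)
    have hn4' : (4 : ℝ) ≤ n := by exact_mod_cast hn4
    have hxn : x ≤ (n : ℝ) ^ 2 := by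
      have := (Nat.lt_floor_add_one x).le
      rw [← hn] at this
      nlinarith
    have hlx : 0 < Real.log x := Real.log_pos (by linarith)
    have hln : 0 < Real.log n := Real.log_pos (by linarith)
    have hl1 : Real.log n ≤ Real.log x := Real.log_le_log (by linarith) hnx
    have hl2 : Real.log x ≤ 2 * Real.log n := by
      have := Real.log_le_log (by linarith) hxn
      rw [Real.log_pow] at this
      push_cast at this
      exact this
    have hPX := PX_le b n hb (by omega)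
    have hcp : ((cop (PX b n) (fun t => {t}) Q).card : ℝ) ≤ (PX b n).card := by
      exact_mod_cast Finset.card_filter_le _ _
    set P : ℝ := ((PX b n).card : ℝ)
    set N : ℝ := ((cop (PX b n) (fun t => {t}) Q).card : ℝ)
    set R : ℝ := ((cho A (PX b n) (fun t => {t}) ω).card : ℝ)
    have hP0 : 0 ≤ P := Nat.cast_nonneg _
    have hN0 : 0 ≤ N := Nat.cast_nonneg _
    have k1 := abs_le.1 g1
    have k2 : c1 / (4 * b) * P ≤ N := by
      calc c1 / (4 * b) * P ≤ c1 / (4 * b) * (4 * b * √(n : ℝ)) := mul_le_mul_of_nonneg_left hPX (by positivity)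
        _ = c1 * √(n : ℝ) := by field_simp
        _ ≤ N := g2
    have hq0 : 0 < q := hc0
    constructor
    · have k3 : 1 / 2 * (N * (q / Real.log n)) ≤ R := by linarith [k1.1]
      refine le_trans ?_ k3
      have k4 : c1 / (4 * b) * P * (q / Real.log x) ≤ N * (q / Real.log n) := by
        apply mul_le_mul k2 _ (by positivity) hN0
        gcongr
      have e1 : c1 / (4 * b) * q / 2 * (P / Real.log x) = 1 / 2 * (c1 / (4 * b) * P * (q / Real.log x)) := by ring
      rw [e1]
      linarith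
    · have k3 : R ≤ 2 * (N * (q / Real.log n)) := by
        have : 0 ≤ N * (q / Real.log n) := by positivity
        linarith [k1.2]
      have k4 : N * (q / Real.log n) ≤ P * (2 * (q / Real.log x)) := by
        apply mul_le_mul hcp _ (by positivity) hP0
        rw [mul_div_assoc', div_le_div_iff₀ hln hlx]
        nlinarith
      calc R ≤ 2 * (P * (2 * (q / Real.log x))) := by linarith
        _ = _ := by ring
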