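import Pool.Agent.N449.SY.Final

/-!
# Sparse factorizations of palindromes come in arithmetic progressions

A palindromic word `L` of digits in base `b` gives a sequence of palindromes `P n = ∑ L i * b ^ (i n)`: insert `n - 1` zeros
between any two consecutive letters of `L`. (If the first letter is not coprime to `b`, then these palindromes have a
common prime factor with `b`.) We call a number split if it is a product of two integers different from `0`, `± 1`, the
first one a sum of `s` and the second one a sum of `t` terms `u b ^ x` with `∑ |u| ≤ c`. Among the palindromes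
`10 ^ (2 n) + 7 * 10 ^ n + 1`, for instance, those with `n ≡ 2 mod 4` are split for `s = t = 5`, `c = 9`, by an identity.

We prove that all splittings come from such identities. If `P n` is split and `n` is not small, then there is
`q ≤ (8 t) ^ (s - 1)` such that all the palindromes `P (n + q l)` are split, in particular not prime. Hence the set of the `n`
for which `P n` is split is eventually periodic, the factorial of `(8 t) ^ (s - 1)` being a period: either only finitely
many of the palindromes `P n` are split, or all of them for the `n` in an arithmetic progression. The same holds for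
the values `F (b ^ n)` of an arbitrary polynomial `F` such that `F (0)` is coprime to `b`.

Proof. The exponents `x` in the first factor are approximated by multiples of `n / q`, `q` chosen by Dirichlet's theorem.
Comparison of the digits of `d e` and `F (b ^ n)` in suitable blocks (`Pool/Agent/N449/SY/Main.lean`) gives an identity
`D(X) E(X) = F(b ^ n X ^ q)` with `D(1) = d`, `E(1) = e`, and we substitute `X = b ^ l`. The roots of `D` and `E` are in the
unit disc, so that `|D(b ^ l)| ≥ |D(1)| = |d| > 1`.
-/

set_option autoImplicit false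

namespace Pool.Agent.Results.MP_e8d2ce_nt.SparseFactorizations

open Finset Polynomial Pool.Agent.N449.SY

/-- **Sparse factorizations of palindromes come in arithmetic progressions.** -/
theorem result (b : ℕ) (hb : 2 ≤ b) :
    -- palindromes: a palindromic word `L` with `n - 1` zeros inserted between consecutive letters
    (∀ (L : List ℕ) (a : ℕ), L.Palindrome → (∀ z ∈ L, z < b) → L.head? = some a → a.Coprime b →
      (∀ n : ℕ, 0 < n → (Nat.digits b (Nat.ofDigits (b ^ n) L)).Palindrome) ∧
      (∀ (s t : ℕ) (c : ℤ) (n : ℕ), 0 < n → Splits b s t c (Nat.ofDigits (b ^ n) L : ℕ) →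
        ((b : ℤ) + L.sum + c ^ 2) ^ (4 * t * (8 * t) ^ (s - 1)) < (b : ℤ) ^ n →
        ∃ q : ℕ, 0 < q ∧ q ≤ (8 * t) ^ (s - 1) ∧
          ∀ l : ℕ, Splits b s t c (Nat.ofDigits (b ^ (n + q * l)) L : ℕ)) ∧
      (∀ (s t : ℕ) (c : ℤ), ∃ N, ∀ n, N ≤ n → (Splits b s t c (Nat.ofDigits (b ^ n) L : ℕ) ↔
        Splits b s t c (Nat.ofDigits (b ^ (n + ((8 * t) ^ (s - 1)).factorial)) L : ℕ)))) ∧
    -- arbitrary polynomials
    (∀ F : ℤ[X], IsCoprime (b : ℤ) (F.coeff 0) →
      (∀ (s t : ℕ) (c : ℤ) (n : ℕ), 0 < n → Splits b s t c (F.eval ((b : ℤ) ^ n)) →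
        (b + (∑ i ∈ range (F.natDegree + 1), |F.coeff i|) + c ^ 2) ^ (4 * t * (8 * t) ^ (s - 1)) < (b : ℤ) ^ n →
        ∃ q : ℕ, 0 < q ∧ q ≤ (8 * t) ^ (s - 1) ∧ ∀ l : ℕ, Splits b s t c (F.eval ((b : ℤ) ^ (n + q * l)))) ∧
      (∀ (s t : ℕ) (c : ℤ), ∃ N, ∀ n, N ≤ n → (Splits b s t c (F.eval ((b : ℤ) ^ n)) ↔
        Splits b s t c (F.eval ((b : ℤ) ^ (n + ((8 * t) ^ (s - 1)).factorial)))))) := by
  refine ⟨?_, ?_⟩
  · intro L a hL hLb hLa hab
    obtain ⟨h1, h2⟩ := word b hb L a hLa hab
    refine ⟨fun n hn => palindrome_spread b hb L hL hLb a ?_ hLa n hn, h1, h2⟩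
    rintro rfl
    rw [Nat.coprime_zero_left] at hab
    omega
  · intro F hF
    exact ⟨fun s t c n hn hs hbig => propagate b hb F hF s t c n hn hs hbig, splits_periodic b hb F hF⟩

end Pool.Agent.Results.MP_e8d2ce_nt.SparseFactorizations
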